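import Pool.Agent.H923R2.FZ.Stubs1

/-! Task CONJ: a Rørdam–Winter system is approximately unitarily conjugate into a subalgebra. -/

set_option autoImplicit false

open scoped ComplexConjugate

noncomputable section

namespace Pool.Agent.H923R2.FZ.T_CONJ

open Pool.Agent.H923R2.FP Pool.Agent.H923R2.FZ

/-! ### real functions as elements of `C([0,1])` -/

/-- a real function as a complex function -/
def cxx (g : C(unitInterval, ℝ)) : C(unitInterval, ℂ) :=
  ⟨fun t => (g t : ℂ), Complex.continuous_ofReal.comp g.continuous⟩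

/-- composition -/
def cmp (F : ℝ → ℝ) (hF : Continuous F) (g : C(unitInterval, ℝ)) : C(unitInterval, ℝ) :=
  ⟨fun t => F (g t), hF.comp g.continuous⟩

lemma cxx_apply (g : C(unitInterval, ℝ)) (t : unitInterval) : cxx g t = (g t : ℂ) := rfl

lemma cxx_sa (g : C(unitInterval, ℝ)) : IsSelfAdjoint (cxx g) := by
  rw [isSelfAdjoint_iff]
  ext t
  simp [cxx_apply]

lemma cont_hom {A B : Type} [CStarAlgebra A] [CStarAlgebra B] (π : A →⋆ₐ[ℂ] B) :
    Continuous π :=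
  AddMonoidHomClass.continuous_of_bound π 1 fun x => by
    rw [one_mul]
    exact NonUnitalStarAlgHom.norm_apply_le π x

lemma map_cfc' {A B : Type} [CStarAlgebra A] [CStarAlgebra B] (π : A →⋆ₐ[ℂ] B) (F : ℝ → ℝ)
    (hF : Continuous F) {x : A} (hx : IsSelfAdjoint x) : π (cfc F x) = cfc F (π x) :=
  StarAlgHomClass.map_cfc (R := ℝ) π F x hF.continuousOn (cont_hom π) hx (hx.map π)

lemma cfc_gen {A D : Type} [CStarAlgebra A] [CStarAlgebra D] (π : D →⋆ₐ[ℂ] A) {X : Type}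
    (e : X → (D →⋆ₐ[ℂ] ℂ)) (he : ∀ d d', (∀ x, e x d = e x d') → d = d') (F : ℝ → ℝ)
    (hF : Continuous F) (g g' : D) (hg : IsSelfAdjoint g) (r : X → ℝ)
    (h1 : ∀ x, e x g = algebraMap ℝ ℂ (r x)) (h2 : ∀ x, e x g' = algebraMap ℝ ℂ (F (r x))) :
    cfc F (π g) = π g' := by
  have h3 : g' = cfc F g := by
    apply he
    intro x
    rw [map_cfc' (e x) F hF hg, h1, cfc_algebraMap, h2]
  rw [h3, map_cfc' π F hF hg]

lemma spec_map {A B : Type} [CStarAlgebra A] [CStarAlgebra B] (π : A →⋆ₐ[ℂ] B) (x : A) :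
    spectrum ℝ (π x) ⊆ spectrum ℝ x := by
  intro r hr
  rw [← spectrum.algebraMap_mem_iff ℂ] at hr ⊢
  exact AlgHom.spectrum_apply_subset π x hr

lemma PC_map {A B : Type} [CStarAlgebra A] [CStarAlgebra B] (π : A →⋆ₐ[ℂ] B) {x : A}
    (hx : PC x) : PC (π x) :=
  ⟨hx.1.map π, (spec_map π x).trans hx.2⟩

lemma PC_cxx (g : C(unitInterval, ℝ)) (hg : ∀ x, g x ∈ Set.Icc (0 : ℝ) 1) : PC (cxx g) := by
  refine ⟨cxx_sa g, ?_⟩
  intro r hr
  rw [← spectrum.algebraMap_mem_iff ℂ, ContinuousMap.spectrum_eq_range] at hr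
  obtain ⟨t, ht⟩ := hr
  have h : g t = r := by
    have h1 : ((g t : ℝ) : ℂ) = ((r : ℝ) : ℂ) := ht
    exact_mod_cast h1
  rw [← h]
  exact hg t

lemma norm_cxx (g : C(unitInterval, ℝ)) (hg : ∀ x, g x ∈ Set.Icc (0 : ℝ) 1) : ‖cxx g‖ ≤ 1 := by
  rw [ContinuousMap.norm_le _ zero_le_one]
  intro x
  rw [cxx_apply, Complex.norm_real, Real.norm_eq_abs, abs_of_nonneg (hg x).1]
  exact (hg x).2

lemma leb_cxx (g : C(unitInterval, ℝ)) : leb (cxx g) = ((∫ x : unitInterval, g x : ℝ) : ℂ) := by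
  unfold leb
  simp only [cxx_apply]
  exact integral_ofReal

lemma cfc_gE {A : Type} [CStarAlgebra A] (f0 : C(unitInterval, ℂ) →⋆ₐ[ℂ] A) (F : ℝ → ℝ)
    (hF : Continuous F) (g : C(unitInterval, ℝ)) :
    cfc F (f0 (cxx g)) = f0 (cxx (cmp F hF g)) :=
  cfc_gen f0 (fun x : unitInterval => ContinuousMap.evalStarAlgHom ℂ ℂ x)
    (fun _ _ h => ContinuousMap.ext h) F hF (cxx g) (cxx (cmp F hF g)) (cxx_sa g)
    (fun x => g x) (fun _ => rfl) (fun _ => rfl)

lemma law_gE {A : Type} [CStarAlgebra A] (τ : A →ₗ[ℂ] ℂ) (f0 : C(unitInterval, ℂ) →⋆ₐ[ℂ] A)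
    (hf0 : ∀ x, τ (f0 x) = leb x) (F : ℝ → ℝ)
    (hF : Continuous F) (g : C(unitInterval, ℝ)) :
    τ (cfc F (f0 (cxx g))) = ((∫ x : unitInterval, F (g x) : ℝ) : ℂ) := by
  rw [cfc_gE f0 F hF, hf0, leb_cxx]
  rfl

/-! ### sums of orthogonal functions -/

section sums

variable {n : ℕ} (f : Fin (n + 1) → C(unitInterval, ℝ))

/-- at each point at most one of the `f i` is nonzero -/
lemma pt (ho : ∀ i j, i ≠ j → ∀ x, f i x * f j x = 0) (x : unitInterval) :
    (∀ i, f i x = 0) ∨ ∃ i, ∀ j, j ≠ i → f j x = 0 := by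
  by_cases h : ∀ i, f i x = 0
  · exact Or.inl h
  · push Not at h
    obtain ⟨i, hi⟩ := h
    refine Or.inr ⟨i, fun j hj => ?_⟩
    rcases mul_eq_zero.1 (ho j i hj x) with h1 | h1
    · exact h1
    · exact absurd h1 hi

lemma sum_pt (ho : ∀ i j, i ≠ j → ∀ x, f i x * f j x = 0) (x : unitInterval) (H : ℝ → ℝ)
    (hH : H 0 = 0) : H (∑ i, f i x) = ∑ i, H (f i x) := by
  rcases pt f ho x with h | ⟨i, h⟩
  · simp [h, hH]
  · rw [Finset.sum_eq_single i (fun j _ hj => h j hj) (by simp),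
      Finset.sum_eq_single i (fun j _ hj => by rw [h j hj, hH]) (by simp)]

lemma sum_mem (hf : ∀ i x, f i x ∈ Set.Icc (0 : ℝ) 1)
    (ho : ∀ i j, i ≠ j → ∀ x, f i x * f j x = 0) (x : unitInterval) :
    ∑ i, f i x ∈ Set.Icc (0 : ℝ) 1 := by
  rcases pt f ho x with h | ⟨i, h⟩
  · simp [h]
  · rw [Finset.sum_eq_single i (fun j _ hj => h j hj) (by simp)]
    exact hf i x

/-- the complementary function -/
def cpl : C(unitInterval, ℝ) := 1 - ∑ i, f i

lemma cpl_apply (x : unitInterval) : cpl f x = 1 - ∑ i, f i x := by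
  simp [cpl, ContinuousMap.sum_apply]

lemma cpl_mem (hf : ∀ i x, f i x ∈ Set.Icc (0 : ℝ) 1)
    (ho : ∀ i j, i ≠ j → ∀ x, f i x * f j x = 0) (x : unitInterval) :
    cpl f x ∈ Set.Icc (0 : ℝ) 1 := by
  have h := sum_mem f hf ho x
  rw [cpl_apply]
  exact ⟨by linarith [h.2], by linarith [h.1]⟩

lemma int_cpl (ho : ∀ i j, i ≠ j → ∀ x, f i x * f j x = 0) (G : ℝ → ℝ) (hG : Continuous G) :
    ∫ x : unitInterval, G (cpl f x) =
      G 1 + ∑ i, ∫ x : unitInterval, (G (1 - f i x) - G 1) := by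
  have hint : ∀ g : C(unitInterval, ℝ), MeasureTheory.Integrable (fun x => g x)
      (MeasureTheory.volume : MeasureTheory.Measure unitInterval) := fun g =>
    g.continuous.integrable_of_hasCompactSupport (HasCompactSupport.of_compactSpace _)
  have h1 : ∀ i, MeasureTheory.Integrable (fun x : unitInterval => G (1 - f i x) - G 1)
      (MeasureTheory.volume : MeasureTheory.Measure unitInterval) := fun i =>
    hint ⟨fun x => G (1 - f i x) - G 1, by fun_prop⟩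
  rw [← MeasureTheory.integral_finsetSum _ fun i _ => h1 i]
  have h2 : ∀ x : unitInterval, G (cpl f x) = G 1 + ∑ i, (G (1 - f i x) - G 1) := by
    intro x
    rw [cpl_apply, ← sum_pt f ho x (fun t => G (1 - t) - G 1) (by simp)]
    ring
  simp only [h2]
  rw [MeasureTheory.integral_add (MeasureTheory.integrable_const _)
    (MeasureTheory.integrable_finsetSum _ fun i _ => h1 i)]
  simp

end sums

lemma norm_cj {B : Type} [CStarAlgebra B] (u : unitary B) (x : B) :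
    ‖(u : B) * x * star (u : B)‖ = ‖x‖ := by
  have h1 : ‖(u : B) * x * ((star u : unitary B) : B)‖ = ‖(u : B) * x‖ :=
    CStarRing.norm_mul_coe_unitary _ _
  rw [Unitary.coe_star] at h1
  rw [h1, CStarRing.norm_coe_unitary_mul]

lemma cont_cut (s d : ℝ) : Continuous (cut s d) := by
  unfold cut
  fun_prop

lemma law_one_sub {B : Type} [CStarAlgebra B] (τ : B →ₗ[ℂ] ℂ) (h1τ : τ 1 = 1) (h : B)
    (hh : IsSelfAdjoint h) (G : ℝ → ℝ) (hG : Continuous G) :
    τ (cfc G (1 - h)) = (G 1 : ℂ) + τ (cfc (fun t => G (1 - t) - G 1) h) := by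
  have e1 : (1 : B) - h = cfc (fun t : ℝ => 1 - t) h := by
    rw [cfc_sub (fun _ : ℝ => (1 : ℝ)) (fun t : ℝ => t) h (by fun_prop) (by fun_prop),
      cfc_const_one ℝ h, cfc_id' ℝ h]
  rw [e1, ← cfc_comp' G (fun t : ℝ => 1 - t) h hG.continuousOn (by fun_prop) hh]
  have e2 : cfc (fun t => G (1 - t) - G 1) h =
      cfc (fun t => G (1 - t)) h - cfc (fun _ : ℝ => G 1) h :=
    cfc_sub (fun t => G (1 - t)) (fun _ : ℝ => G 1) h (by fun_prop) (by fun_prop)
  rw [e2, cfc_const (G 1) h hh, map_sub]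
  have e3 : τ (algebraMap ℝ B (G 1)) = (G 1 : ℂ) := by
    have : algebraMap ℝ B (G 1) = ((G 1 : ℝ) : ℂ) • (1 : B) := by
      rw [Algebra.algebraMap_eq_smul_one]
      exact (Complex.coe_smul (G 1) (1 : B)).symm
    rw [this, map_smul, h1τ, smul_eq_mul, mul_one]
  rw [e3]
  ring

/-- the image of a unitary -/
def mu {A B : Type} [CStarAlgebra A] [CStarAlgebra B] (ι : A →⋆ₐ[ℂ] B) (w : unitary A) :
    unitary B :=
  ⟨ι (w : A), by
    rw [Unitary.mem_iff]
    constructor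
    · rw [← map_star, ← map_mul, Unitary.coe_star_mul_self, map_one]
    · have h : (w : A) * star (w : A) = 1 := Unitary.coe_mul_star_self w
      rw [← map_star, ← map_mul, h, map_one]⟩

/-- the conjugation argument once the element `v0` of `A` is known -/
lemma core {A B : Type} [CStarAlgebra A] [CStarAlgebra B] (ι : A →⋆ₐ[ℂ] B) (n : ℕ)
    (φ : Fin (n + 1) → Fin (n + 1) → B) (v : B)
    (hvv : star v * v = 1 - ∑ m, φ m m) (Fi : Fin (n + 1) → A) (w : Fin (n + 1) → unitary A)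
    (v0 : A) (u1 : unitary B) (ε1 δ1 δ2 δ3 : ℝ) (h01 : 0 < δ1) (h02 : 0 < δ2) (h0e : 0 < ε1)
    (hd2 : δ2 ≤ 1 / 2) (hd2' : δ2 ≤ δ3 / 4) (he1 : ε1 ≤ δ3 / (8 * (n + 1)))
    (hd1 : δ1 ≤ δ3 / (8 * (n + 1))) (h03 : 0 < δ3)
    (hc : ‖(1 : A) - ∑ i, Fi i‖ ≤ 1)
    (hv1 : ‖star v0 * v0 - (1 - ∑ i, Fi i)‖ ≤ δ2) (hv2 : ‖Fi 0 * v0 - v0‖ ≤ δ2)
    (hw : ∀ i, ‖(w i : A) * Fi 0 * star (w i : A) - Fi i‖ < δ1)
    (hu1 : ∀ i j, ‖(u1 : B) * φ i j * star (u1 : B) -
      ι ((w i : A) * Fi 0 * star (w j : A))‖ < ε1) :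
    ‖star (star (u1 : B) * ι v0 * u1) * (star (u1 : B) * ι v0 * u1) - star v * v‖ < δ3 ∧
    ‖φ 0 0 * (star (u1 : B) * ι v0 * u1) - star (u1 : B) * ι v0 * u1‖ < δ3 := by
  have huu : (u1 : B) * star (u1 : B) = 1 := Unitary.coe_mul_star_self u1
  have huu' : star (u1 : B) * (u1 : B) = 1 := Unitary.coe_star_mul_self u1
  have hι : ∀ x : A, ‖ι x‖ ≤ ‖x‖ := fun x => NonUnitalStarAlgHom.norm_apply_le ι x
  have hn : (0 : ℝ) < (n : ℝ) + 1 := by positivity
  have hk : δ3 / (8 * (n + 1)) * (n + 1) = δ3 / 8 := by field_simp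
  have hk' : δ3 / (8 * (n + 1)) ≤ δ3 / 8 := by
    rw [← hk]
    have : (1 : ℝ) ≤ (n : ℝ) + 1 := by linarith [(Nat.cast_nonneg n : (0 : ℝ) ≤ n)]
    have h2 : 0 ≤ δ3 / (8 * ((n : ℝ) + 1)) := by positivity
    nlinarith
  have hm : ∀ m, ‖(u1 : B) * φ m m * star (u1 : B) - ι (Fi m)‖ ≤ ε1 + δ1 := by
    intro m
    have e : (u1 : B) * φ m m * star (u1 : B) - ι (Fi m) =
        ((u1 : B) * φ m m * star (u1 : B) - ι ((w m : A) * Fi 0 * star (w m : A))) +
        ι ((w m : A) * Fi 0 * star (w m : A) - Fi m) := by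
      rw [map_sub]
      abel
    rw [e]
    refine (norm_add_le _ _).trans ?_
    have h1 := hu1 m m
    have h2 := (hι ((w m : A) * Fi 0 * star (w m : A) - Fi m)).trans (hw m).le
    linarith
  have hv0 : ‖v0‖ ≤ 2 := by
    have h1 : ‖star v0 * v0‖ ≤ 3 / 2 := by
      have e : star v0 * v0 = (star v0 * v0 - (1 - ∑ i, Fi i)) + (1 - ∑ i, Fi i) := by abel
      rw [e]
      refine (norm_add_le _ _).trans ?_
      linarith
    rw [CStarRing.norm_star_mul_self] at h1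
    nlinarith [norm_nonneg v0]
  constructor
  · rw [← norm_cj u1]
    have e : (u1 : B) * (star (star (u1 : B) * ι v0 * u1) * (star (u1 : B) * ι v0 * u1) -
        star v * v) * star (u1 : B) =
        ι (star v0 * v0 - (1 - ∑ i, Fi i)) +
          ∑ m, ((u1 : B) * φ m m * star (u1 : B) - ι (Fi m)) := by
      rw [hvv, Finset.sum_sub_distrib, ← Finset.sum_mul, ← Finset.mul_sum, map_sub, map_sub,
        map_one, map_sum, map_mul, map_star]
      simp only [star_mul, star_star]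
      have e1 : (u1 : B) * (star (u1 : B) * (star (ι v0) * (u1 : B)) *
          (star (u1 : B) * ι v0 * (u1 : B)) - (1 - ∑ m, φ m m)) * star (u1 : B) =
          ((u1 : B) * star (u1 : B)) * star (ι v0) * ((u1 : B) * star (u1 : B)) * ι v0 *
            ((u1 : B) * star (u1 : B)) - (u1 : B) * star (u1 : B) +
            (u1 : B) * (∑ m, φ m m) * star (u1 : B) := by noncomm_ring
      rw [e1, huu]
      noncomm_ring
    rw [e]
    refine lt_of_le_of_lt (norm_add_le _ _) ?_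
    have h1 := (hι (star v0 * v0 - (1 - ∑ i, Fi i))).trans hv1
    have h2 : ‖∑ m, ((u1 : B) * φ m m * star (u1 : B) - ι (Fi m))‖ ≤
        ((n : ℝ) + 1) * (ε1 + δ1) := by
      refine (norm_sum_le _ _).trans ?_
      refine (Finset.sum_le_sum fun m _ => hm m).trans ?_
      rw [Finset.sum_const, Finset.card_univ, Fintype.card_fin, nsmul_eq_mul]
      push_cast
      exact le_rfl
    have h3 : ((n : ℝ) + 1) * (ε1 + δ1) ≤ δ3 / 4 := by
      have h4 : ((n : ℝ) + 1) * ε1 ≤ δ3 / 8 := by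
        rw [← hk, mul_comm]
        exact mul_le_mul_of_nonneg_right he1 hn.le
      have h5 : ((n : ℝ) + 1) * δ1 ≤ δ3 / 8 := by
        rw [← hk, mul_comm]
        exact mul_le_mul_of_nonneg_right hd1 hn.le
      rw [mul_add]
      linarith
    linarith
  · rw [← norm_cj u1]
    have e : (u1 : B) * (φ 0 0 * (star (u1 : B) * ι v0 * u1) - star (u1 : B) * ι v0 * u1) *
        star (u1 : B) =
        ((u1 : B) * φ 0 0 * star (u1 : B) - ι (Fi 0)) * ι v0 + ι (Fi 0 * v0 - v0) := by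
      rw [map_sub, map_mul]
      have e1 : (u1 : B) * (φ 0 0 * (star (u1 : B) * ι v0 * u1) - star (u1 : B) * ι v0 * u1) *
          star (u1 : B) = (u1 : B) * φ 0 0 * star (u1 : B) * ι v0 * ((u1 : B) * star (u1 : B)) -
            ((u1 : B) * star (u1 : B)) * ι v0 * ((u1 : B) * star (u1 : B)) := by noncomm_ring
      rw [e1, huu]
      noncomm_ring
    rw [e]
    refine lt_of_le_of_lt (norm_add_le _ _) ?_
    have h1 := (hι (Fi 0 * v0 - v0)).trans hv2
    have h2 : ‖((u1 : B) * φ 0 0 * star (u1 : B) - ι (Fi 0)) * ι v0‖ ≤ (ε1 + δ1) * 2 := by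
      refine (norm_mul_le _ _).trans ?_
      exact mul_le_mul (hm 0) ((hι v0).trans hv0) (norm_nonneg _) (by linarith)
    linarith

theorem t_CONJ (hPOS : S_POS) (hOZ : S_OZ) (hVST : S_VST) (hV0 : S_V0) (hLAWV : S_LAWV)
    (hQNT : S_QNT) : S_CONJ := by
  intro A B _ _ τA τB hτA hτB hFC _hPA hMVA hPB hPHB hMVB ι hι f0 hf0 n φ v hR hFS ε hε
  obtain ⟨f, hf, ho, hlaw⟩ := hQNT B τB hτB n φ v hR hFS
  obtain ⟨hFS0, hmul, hcut⟩ := hLAWV B τB hτB n φ v hR hFS
  set Fi : Fin (n + 1) → A := fun i => f0 (cxx (f i)) with hFi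
  have hPC : ∀ i, PC (Fi i) := fun i => PC_map f0 (PC_cxx (f i) (hf i))
  have hlA : ∀ i, ∀ F : ℝ → ℝ, Continuous F → τA (cfc F (Fi i)) = τB (cfc F (φ 0 0)) := by
    intro i F hF
    rw [← hlaw i F hF]
    exact law_gE τA f0 hf0 F hF (f i)
  have hSL : ∀ i, SL τA (Fi 0) (Fi i) := fun i F hF => by rw [hlA 0 F hF, hlA i F hF]
  have hFSA : FSl τA (Fi 0) := by
    intro F hF h1 h2
    rw [hlA 0 F hF]
    exact hFS0 F hF h1 h2
  have hSLB : SL τB (φ 0 0) (ι (Fi 0)) := by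
    intro F hF
    rw [← map_cfc' ι F hF (hPC 0).1, hι, hlA 0 F hF]
  -- the complementary element
  have hcE : (1 : A) - ∑ i, Fi i = f0 (cxx (cpl f)) := by
    have e : cxx (cpl f) = 1 - ∑ i, cxx (f i) := by
      ext x
      simp [cxx_apply, cpl_apply, ContinuousMap.sum_apply]
    rw [e, map_sub, map_one, map_sum]
  have hPCc : PC ((1 : A) - ∑ i, Fi i) := by
    rw [hcE]
    exact PC_map f0 (PC_cxx _ (cpl_mem f hf ho))
  have hnc : ‖(1 : A) - ∑ i, Fi i‖ ≤ 1 := by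
    rw [hcE]
    exact (NonUnitalStarAlgHom.norm_apply_le f0 _).trans (norm_cxx _ (cpl_mem f hf ho))
  have hlc : ∀ G : ℝ → ℝ, Continuous G →
      τA (cfc G ((1 : A) - ∑ i, Fi i)) = τB (cfc G (1 - ∑ m, φ m m)) := by
    intro G hG
    have hG' : Continuous fun t => G (1 - t) - G 1 := by fun_prop
    rw [hcE, law_gE τA f0 hf0 G hG, int_cpl f ho G hG,
      law_one_sub τB hτB.one _ hR.pc.1 G hG, hmul _ hG' (by simp)]
    push_cast
    congr 1
    have h1 : ∀ i, ((∫ x : unitInterval, (G (1 - f i x) - G 1) : ℝ) : ℂ) =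
        τB (cfc (fun t => G (1 - t) - G 1) (φ 0 0)) := fun i => hlaw i _ hG'
    simp only [h1]
    simp
  -- parameters
  obtain ⟨δ3, h3, hV⟩ := hVST B hPHB n φ v hR (ε / 2) (by positivity)
  set κ : ℝ := δ3 / (8 * (n + 1)) with hκ
  have hκ0 : 0 < κ := by positivity
  set ε1 : ℝ := min (ε / 2) κ with hε1
  have hε10 : 0 < ε1 := lt_min (by positivity) hκ0
  set δ2 : ℝ := min (1 / 2) (δ3 / 4) with hδ2
  have hδ20 : 0 < δ2 := lt_min (by positivity) (by positivity)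
  have hδ21 : δ2 < 1 := lt_of_le_of_lt (min_le_left _ _) (by norm_num)
  obtain ⟨v0, hv1, hv2⟩ := hV0 A τA hτA hFC (1 - ∑ i, Fi i) (Fi 0) δ2 hPCc (hPC 0) hδ20 hδ21
    (by
      rw [hlc _ (cont_cut _ _), hlA 0 _ (cont_cut _ _)]
      exact hcut δ2 hδ20 hδ21)
  obtain ⟨δ1, hδ1, hO⟩ := hOZ B hPB n φ v hR (ι (Fi 0)) (fun i => ι (Fi i)) (PC_map ι (hPC 0))
    (fun i => PC_map ι (hPC i))
    (fun i j hij => by
      show ι (f0 (cxx (f i))) * ι (f0 (cxx (f j))) = 0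
      have e : cxx (f i) * cxx (f j) = 0 := by
        ext x
        have := ho i j hij x
        simp only [ContinuousMap.mul_apply, cxx_apply, ContinuousMap.zero_apply]
        rw [← Complex.ofReal_mul, this, Complex.ofReal_zero]
      rw [← map_mul, ← map_mul, e, map_zero, map_zero]) ε1 hε10
  set δ' : ℝ := min δ1 κ with hδ'
  have hδ'0 : 0 < δ' := lt_min hδ1 hκ0
  have hw : ∀ i, ∃ w : unitary A, ‖(w : A) * Fi 0 * star (w : A) - Fi i‖ < δ' := fun i =>
    hPOS A τA hτA hMVA (Fi 0) (Fi i) (hPC 0) (hPC i) (hSL i) hFSA δ' hδ'0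
  choose w hw using hw
  obtain ⟨W, hW⟩ := hPOS B τB hτB hMVB (φ 0 0) (ι (Fi 0)) (hR.pc0 0) (PC_map ι (hPC 0)) hSLB
    hFS0 δ' hδ'0
  have hιn : ∀ x : A, ‖ι x‖ ≤ ‖x‖ := fun x => NonUnitalStarAlgHom.norm_apply_le ι x
  obtain ⟨u1, hu1⟩ := hO W (fun i => mu ι (w i))
    (hW.trans_le (min_le_left _ _))
    (fun i => by
      have e : ((mu ι (w i) : unitary B) : B) = ι (w i : A) := rfl
      rw [e, ← map_star, ← map_mul, ← map_mul, ← map_sub]
      exact ((hιn _).trans_lt (hw i)).trans_le (min_le_left _ _))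
  have hu1' : ∀ i j, ‖(u1 : B) * φ i j * star (u1 : B) -
      ι ((w i : A) * Fi 0 * star (w j : A))‖ < ε1 := by
    intro i j
    have h := hu1 i j
    have e : ∀ k, ((mu ι (w k) : unitary B) : B) = ι (w k : A) :=
      fun _ => rfl
    rw [e, e, ← map_star, ← map_mul, ← map_mul] at h
    exact h
  obtain ⟨hc1, hc2⟩ := core ι n φ v hR.vv Fi w v0 u1 ε1 δ' δ2 δ3 hδ'0 hδ20 hε10 (min_le_left _ _)
    (min_le_right _ _) (min_le_right _ _) (min_le_right _ _) h3 hnc hv1 hv2 hw hu1'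
  obtain ⟨u2, hu2, hu2v⟩ := hV (star (u1 : B) * ι v0 * u1) hc1 hc2
  have huu : (u1 : B) * star (u1 : B) = 1 := Unitary.coe_mul_star_self u1
  have hcomp : ∀ x y : B, (((u1 * u2 : unitary B)) : B) * x * star (((u1 * u2 : unitary B)) : B) -
      (u1 : B) * y * star (u1 : B) = (u1 : B) * ((u2 : B) * x * star (u2 : B) - y) *
        star (u1 : B) := by
    intro x y
    have e : (((u1 * u2 : unitary B)) : B) = (u1 : B) * (u2 : B) := rfl
    rw [e, star_mul]
    noncomm_ring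
  refine ⟨u1 * u2, fun i j => ⟨(w i : A) * Fi 0 * star (w j : A), ?_⟩, v0, ?_⟩
  · have e : (((u1 * u2 : unitary B)) : B) * φ i j * star (((u1 * u2 : unitary B)) : B) -
        ι ((w i : A) * Fi 0 * star (w j : A)) =
        (u1 : B) * ((u2 : B) * φ i j * star (u2 : B) - φ i j) * star (u1 : B) +
        ((u1 : B) * φ i j * star (u1 : B) - ι ((w i : A) * Fi 0 * star (w j : A))) := by
      rw [← hcomp (φ i j) (φ i j)]
      abel
    rw [e]
    refine lt_of_le_of_lt (norm_add_le _ _) ?_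
    rw [norm_cj]
    have h1 := hu2 i j
    have h2 := hu1' i j
    have h4 : ε1 ≤ ε / 2 := min_le_left _ _
    linarith
  · have e0 : (u1 : B) * (star (u1 : B) * ι v0 * u1) * star (u1 : B) = ι v0 := by
      have : (u1 : B) * (star (u1 : B) * ι v0 * u1) * star (u1 : B) =
        ((u1 : B) * star (u1 : B)) * ι v0 * ((u1 : B) * star (u1 : B)) := by noncomm_ring
      rw [this, huu, one_mul, mul_one]
    have e := hcomp v (star (u1 : B) * ι v0 * u1)
    rw [e0] at e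
    rw [e, norm_cj]
    linarith

end Pool.Agent.H923R2.FZ.T_CONJ
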